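import Pool.Agent.K1H54.GC.Stm3
import Pool.Agent.K1H89.GC.Mom

/-! # Piece ZQ of project GC: the correlations of the Legendre symbol -/

set_option autoImplicit false

namespace Pool.Agent.K1H40.GC

open Finset Pool.Agent.K1H54.GC

theorem qc_apply (p : ℕ) [Fact p.Prime] (x : ZMod p) :
    qc p x = ((quadraticChar (ZMod p) x : ℤ) : ℂ) := rfl

theorem quad_inv (p : ℕ) [Fact p.Prime] (x : ZMod p) :
    quadraticChar (ZMod p) x⁻¹ = quadraticChar (ZMod p) x := by
  by_cases hx : x = 0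
  · rw [hx, inv_zero]
  · have h1 : quadraticChar (ZMod p) x⁻¹ * quadraticChar (ZMod p) x = 1 := by
      rw [← map_mul, inv_mul_cancel₀ hx, map_one]
    have h2 : quadraticChar (ZMod p) x ^ 2 = 1 := quadraticChar_sq_one hx
    calc quadraticChar (ZMod p) x⁻¹
        = quadraticChar (ZMod p) x⁻¹ * quadraticChar (ZMod p) x ^ 2 := by rw [h2, mul_one]
      _ = (quadraticChar (ZMod p) x⁻¹ * quadraticChar (ZMod p) x) * quadraticChar (ZMod p) x := by
          ring
      _ = quadraticChar (ZMod p) x := by rw [h1, one_mul]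

theorem qc_gq (p : ℕ) [Fact p.Prime] (t : ℕ × ℕ) : qc p (Pool.Agent.K1H89.GC.gq p t) =
    ((jacobiSym ((t.1 : ℤ) * ((t.1 - t.2 : ℕ) : ℤ)) p : ℤ) : ℂ) := by
  rw [qc_apply, ← jacobiSym.legendreSym.to_jacobiSym]
  unfold Pool.Agent.K1H89.GC.gq legendreSym
  rw [map_mul, quad_inv, ← map_mul, mul_comm]
  push_cast
  rfl

theorem t_ZQ : S_ZQ := by
  intro p _ U1 U2 j
  rw [Pool.Agent.K1H89.GC.ZZ_eq]
  unfold zq
  rw [Complex.ofReal_sum]
  refine sum_congr rfl fun t _ => ?_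
  rw [qc_gq]
  unfold Pool.Agent.K1H89.GC.cc
  push_cast
  ring

end Pool.Agent.K1H40.GC
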